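import Pool.Agent.H91.GE.Finite

/-!
# Secure compact Riemannian manifolds have finitely many connecting geodesics of bounded length
-/

set_option autoImplicit false

open scoped InnerProductSpace

namespace Pool.Agent.Results.MP_db5e86_gt.FiniteGeodesics

/-- `S` is an `n`-dimensional smooth embedded submanifold (without boundary) of the Euclidean space
of dimension `n + k`: near each of its points it is the zero set of a smooth submersion to the
Euclidean space of dimension `k`. -/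
def IsSubmanifold (n k : ℕ) (S : Set (EuclideanSpace ℝ (Fin (n + k)))) : Prop :=
  ∀ p ∈ S, ∃ U : Set (EuclideanSpace ℝ (Fin (n + k))), IsOpen U ∧ p ∈ U ∧
    ∃ f : EuclideanSpace ℝ (Fin (n + k)) → EuclideanSpace ℝ (Fin k),
      ContDiffOn ℝ ((⊤ : ℕ∞) : WithTop ℕ∞) f U ∧
      (∀ q ∈ U, Function.Surjective ⇑(fderiv ℝ f q)) ∧
      S ∩ U = U ∩ f ⁻¹' {0}

/-- `γ : ℝ → S` is a geodesic of `S` (with the metric induced from the Euclidean space), of constant
but arbitrary speed: smooth, with second derivative orthogonal to `S`. -/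
def IsGeodesic {n k : ℕ} (S : Set (EuclideanSpace ℝ (Fin (n + k))))
    (γ : ℝ → EuclideanSpace ℝ (Fin (n + k))) : Prop :=
  ContDiff ℝ ((⊤ : ℕ∞) : WithTop ℕ∞) γ ∧ (∀ t, γ t ∈ S) ∧
    ∀ t : ℝ, ∀ c : ℝ → EuclideanSpace ℝ (Fin (n + k)), ContDiff ℝ 1 c →
      (∀ s, c s ∈ S) → c 0 = γ t → ⟪deriv (deriv γ) t, deriv c 0⟫_ℝ = 0

/-- `S` is secure: for all `x, y` in `S` there is a finite subset `B` of `S`, containing neither `x`
nor `y`, such that every geodesic segment from `x` to `y` passes through a point of `B`. -/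
def IsSecure {n k : ℕ} (S : Set (EuclideanSpace ℝ (Fin (n + k)))) : Prop :=
  ∀ x ∈ S, ∀ y ∈ S, ∃ B : Finset (EuclideanSpace ℝ (Fin (n + k))),
    (↑B : Set (EuclideanSpace ℝ (Fin (n + k)))) ⊆ S ∧ x ∉ B ∧ y ∉ B ∧
    ∀ γ : ℝ → EuclideanSpace ℝ (Fin (n + k)), IsGeodesic S γ →
      γ 0 = x → γ 1 = y → deriv γ 0 ≠ 0 → ∃ t ∈ Set.Ioo (0 : ℝ) 1, γ t ∈ B

/-- Let `S` be a compact secure submanifold. For all `x, y` in `S` and every bound `T` on the length
(equal to the initial speed, as the segments are parametrised by `[0, 1]`), there are only finitely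
many nonconstant geodesics from `x` to `y` of length at most `T`. -/
theorem result : ∀ (n k : ℕ) (S : Set (EuclideanSpace ℝ (Fin (n + k)))),
    IsCompact S → IsSubmanifold n k S → IsSecure S →
    ∀ x ∈ S, ∀ y ∈ S, ∀ T : ℝ,
      {γ : ℝ → EuclideanSpace ℝ (Fin (n + k)) | IsGeodesic S γ ∧ γ 0 = x ∧ γ 1 = y ∧
        deriv γ 0 ≠ 0 ∧ ‖deriv γ 0‖ ≤ T}.Finite := by
  intro n k S hS hsub hsec x hx y hy T
  have hgeo : ∀ γ : ℝ → EuclideanSpace ℝ (Fin (n + k)), IsGeodesic S γ ↔ H91.GE.IsGeo S γ :=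
    fun γ => ⟨fun h => ⟨h.1, h.2.1, h.2.2⟩, fun h => ⟨h.smooth, h.mem, h.acc⟩⟩
  have hsub' : H91.GE.IsSub (EuclideanSpace ℝ (Fin k)) S := by
    intro p hp
    obtain ⟨U, hU, hpU, f, hf, hsurj, heq⟩ := hsub p hp
    exact ⟨U, hpU, f, ⟨hU, hf, hsurj, heq⟩⟩
  have hsec' : H91.GE.Secure S := by
    intro x hx y hy
    obtain ⟨B, hB, hxB, hyB, h⟩ := hsec x hx y hy
    exact ⟨B, hB, hxB, hyB, fun γ hγ h0 h1 hd => h γ ((hgeo γ).2 hγ) h0 h1 hd⟩
  refine (H91.GE.finite_geodesics hS hsub' hsec' hx hy T).subset ?_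
  rintro γ ⟨h1, h2⟩
  exact ⟨(hgeo γ).1 h1, h2⟩

end Pool.Agent.Results.MP_db5e86_gt.FiniteGeodesics
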