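import Pool.Agent.H59.ND.Final

/-!
# Secure manifolds of any dimension: long geodesics and orbit closures of the geodesic flow
-/

set_option autoImplicit false

open scoped InnerProductSpace

namespace Pool.Agent.Results.MP_db5e86_gt.OrbitClosures

/-- `S` is an `n`-dimensional smooth embedded submanifold (without boundary) of the Euclidean space
of dimension `n + k`: near each of its points it is the zero set of a smooth submersion to the
Euclidean space of dimension `k`. -/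
def IsSubmanifold (n k : ℕ) (S : Set (EuclideanSpace ℝ (Fin (n + k)))) : Prop :=
  ∀ p ∈ S, ∃ U : Set (EuclideanSpace ℝ (Fin (n + k))), IsOpen U ∧ p ∈ U ∧
    ∃ f : EuclideanSpace ℝ (Fin (n + k)) → EuclideanSpace ℝ (Fin k),
      ContDiffOn ℝ ((⊤ : ℕ∞) : WithTop ℕ∞) f U ∧
      (∀ q ∈ U, Function.Surjective ⇑(fderiv ℝ f q)) ∧
      S ∩ U = U ∩ f ⁻¹' {0}

/-- `γ : ℝ → S` is a geodesic of `S` (with the metric induced from the Euclidean space), of constant
but arbitrary speed: smooth, with second derivative orthogonal to `S`. -/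
def IsGeodesic {n k : ℕ} (S : Set (EuclideanSpace ℝ (Fin (n + k))))
    (γ : ℝ → EuclideanSpace ℝ (Fin (n + k))) : Prop :=
  ContDiff ℝ ((⊤ : ℕ∞) : WithTop ℕ∞) γ ∧ (∀ t, γ t ∈ S) ∧
    ∀ t : ℝ, ∀ c : ℝ → EuclideanSpace ℝ (Fin (n + k)), ContDiff ℝ 1 c →
      (∀ s, c s ∈ S) → c 0 = γ t → ⟪deriv (deriv γ) t, deriv c 0⟫_ℝ = 0

/-- `S` is secure: for all `x, y` in `S` there is a finite subset `B` of `S`, containing neither `x`
nor `y`, such that every geodesic segment from `x` to `y` passes through a point of `B`. -/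
def IsSecure {n k : ℕ} (S : Set (EuclideanSpace ℝ (Fin (n + k)))) : Prop :=
  ∀ x ∈ S, ∀ y ∈ S, ∃ B : Finset (EuclideanSpace ℝ (Fin (n + k))),
    (↑B : Set (EuclideanSpace ℝ (Fin (n + k)))) ⊆ S ∧ x ∉ B ∧ y ∉ B ∧
    ∀ γ : ℝ → EuclideanSpace ℝ (Fin (n + k)), IsGeodesic S γ →
      γ 0 = x → γ 1 = y → deriv γ 0 ≠ 0 → ∃ t ∈ Set.Ioo (0 : ℝ) 1, γ t ∈ B

/-- `u` is tangent to `S` at `x`: it is the velocity of a continuously differentiable curve
in `S`. -/
def IsTangent {n k : ℕ} (S : Set (EuclideanSpace ℝ (Fin (n + k))))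
    (x u : EuclideanSpace ℝ (Fin (n + k))) : Prop :=
  ∃ c : ℝ → EuclideanSpace ℝ (Fin (n + k)), ContDiff ℝ 1 c ∧ (∀ s, c s ∈ S) ∧
    c 0 = x ∧ deriv c 0 = u

/-- `(x, u)` leads to `(y, v)`: there are arbitrarily long unit speed geodesics of `S` which start
arbitrarily near `(x, u)` and arrive arbitrarily near `(y, v)`. -/
def Leads {n k : ℕ} (S : Set (EuclideanSpace ℝ (Fin (n + k))))
    (x u y v : EuclideanSpace ℝ (Fin (n + k))) : Prop :=
  ∀ ε > 0, ∀ T : ℝ, ∃ γ : ℝ → EuclideanSpace ℝ (Fin (n + k)), IsGeodesic S γ ∧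
    ‖deriv γ 0‖ = 1 ∧ ‖γ 0 - x‖ < ε ∧ ‖deriv γ 0 - u‖ < ε ∧
    ∃ t > T, ‖γ t - y‖ < ε ∧ ‖deriv γ t - v‖ < ε

/-- Let `S` be a secure compact submanifold of dimension `n ≥ 2`.

(i) For all pairs `(x, y)` outside a meagre subset of `S × S` there is a finite set `L` of linear
maps, which map the tangent space at `x` injectively to the tangent space at `y`, such that whenever
`(x, u)` leads to `(y, v)`, the vector `v` is a multiple of the image of `u` under one of them.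

(ii) No orbit of the geodesic flow is dense in a nonempty open subset of the unit tangent bundle:
every open set `O` which contains a unit tangent vector `(q, w)` of `S` contains one outside the
closure of the orbit of a given unit speed geodesic `γ`. -/
theorem result : ∀ (n k : ℕ) (S : Set (EuclideanSpace ℝ (Fin (n + k)))), 2 ≤ n →
    IsCompact S → IsSubmanifold n k S → IsSecure S →
    IsMeagre {x : S × S | ¬ ∃ L : Set (EuclideanSpace ℝ (Fin (n + k)) →L[ℝ]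
        EuclideanSpace ℝ (Fin (n + k))), L.Finite ∧
      (∀ l ∈ L, ∀ u, IsTangent S x.1 u → IsTangent S x.2 (l u) ∧ (l u = 0 → u = 0)) ∧
      ∀ u v, Leads S x.1 u x.2 v → ∃ l ∈ L, ∃ c : ℝ, v = c • l u} ∧
    ∀ γ : ℝ → EuclideanSpace ℝ (Fin (n + k)), IsGeodesic S γ → ‖deriv γ 0‖ = 1 →
      ∀ O : Set (EuclideanSpace ℝ (Fin (n + k)) × EuclideanSpace ℝ (Fin (n + k))), IsOpen O →
        (∃ q w, IsTangent S q w ∧ ‖w‖ = 1 ∧ (q, w) ∈ O) →
        ∃ q w, IsTangent S q w ∧ ‖w‖ = 1 ∧ (q, w) ∈ O ∧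
          (q, w) ∉ closure (Set.range fun t => (γ t, deriv γ t)) := by
  intro n k S hn hS hsub hsec
  have hgeo : ∀ γ : ℝ → EuclideanSpace ℝ (Fin (n + k)), H91.GE.IsGeo S γ ↔ IsGeodesic S γ :=
    fun γ => ⟨fun h => ⟨h.smooth, h.mem, h.acc⟩, fun h => ⟨h.1, h.2.1, h.2.2⟩⟩
  have hsub' : H91.GE.IsSub (EuclideanSpace ℝ (Fin k)) S := by
    intro p hp
    obtain ⟨U, hU, hpU, f, hf, hsurj, heq⟩ := hsub p hp
    exact ⟨U, hpU, f, ⟨hU, hf, hsurj, heq⟩⟩
  have hsec' : H91.GE.Secure S := by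
    intro x hx y hy
    obtain ⟨B, hB, hxB, hyB, h⟩ := hsec x hx y hy
    exact ⟨B, hB, hxB, hyB, fun γ hγ h0 h1 hd => h γ ((hgeo γ).1 hγ) h0 h1 hd⟩
  have hlead : ∀ x u y v : EuclideanSpace ℝ (Fin (n + k)), Leads S x u y v →
      H59.ND.LeadsTo S x u y v := by
    intro x u y v h ε hε T
    obtain ⟨γ, h1, h2⟩ := h ε hε T
    exact ⟨γ, (hgeo γ).2 h1, h2⟩
  have hfin := H59.ND.final (F := EuclideanSpace ℝ (Fin k)) (EuclideanSpace ℝ (Fin n))
    (by rw [finrank_euclideanSpace_fin, finrank_euclideanSpace_fin, finrank_euclideanSpace_fin]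
        ring) (by rw [finrank_euclideanSpace_fin]; omega) hS hsub' hsec'
  refine ⟨hfin.1.mono ?_, ?_⟩
  · rintro x hx ⟨L, hL, hL0, hL'⟩
    exact hx ⟨L, hL, hL0, fun u v huv => hL' u v (hlead _ _ _ _ huv)⟩
  · rintro γ hγ hγ1 O hO ⟨q₀, w₀, h1, h2, h3⟩
    obtain ⟨⟨q, w⟩, ⟨g1, g2, g3⟩, g4⟩ := hfin.2 γ ((hgeo γ).2 hγ) hγ1 O hO ⟨(q₀, w₀), h3, h1, h2⟩
    exact ⟨q, w, g2, g3, g1, g4⟩

end Pool.Agent.Results.MP_db5e86_gt.OrbitClosures
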