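import Pool.Agent.H91.GS.Flat

/-!
# Every secure compact surface is flat
-/

set_option autoImplicit false

open scoped InnerProductSpace

namespace Pool.Agent.Results.MP_db5e86_gt.SecureSurfaceFlat

/-- `S` is an `n`-dimensional smooth embedded submanifold (without boundary) of the Euclidean space
of dimension `n + k`: near each of its points it is the zero set of a smooth submersion to the
Euclidean space of dimension `k`. -/
def IsSubmanifold (n k : ℕ) (S : Set (EuclideanSpace ℝ (Fin (n + k)))) : Prop :=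
  ∀ p ∈ S, ∃ U : Set (EuclideanSpace ℝ (Fin (n + k))), IsOpen U ∧ p ∈ U ∧
    ∃ f : EuclideanSpace ℝ (Fin (n + k)) → EuclideanSpace ℝ (Fin k),
      ContDiffOn ℝ ((⊤ : ℕ∞) : WithTop ℕ∞) f U ∧
      (∀ q ∈ U, Function.Surjective ⇑(fderiv ℝ f q)) ∧
      S ∩ U = U ∩ f ⁻¹' {0}

/-- `γ : ℝ → S` is a geodesic of `S` (with the metric induced from the Euclidean space), of constant
but arbitrary speed: smooth, with second derivative orthogonal to `S`. -/
def IsGeodesic {n k : ℕ} (S : Set (EuclideanSpace ℝ (Fin (n + k))))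
    (γ : ℝ → EuclideanSpace ℝ (Fin (n + k))) : Prop :=
  ContDiff ℝ ((⊤ : ℕ∞) : WithTop ℕ∞) γ ∧ (∀ t, γ t ∈ S) ∧
    ∀ t : ℝ, ∀ c : ℝ → EuclideanSpace ℝ (Fin (n + k)), ContDiff ℝ 1 c →
      (∀ s, c s ∈ S) → c 0 = γ t → ⟪deriv (deriv γ) t, deriv c 0⟫_ℝ = 0

/-- `S` is secure: for all `x, y` in `S` there is a finite subset `B` of `S`, containing neither `x`
nor `y`, such that every geodesic segment from `x` to `y` passes through a point of `B`. -/
def IsSecure {n k : ℕ} (S : Set (EuclideanSpace ℝ (Fin (n + k)))) : Prop :=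
  ∀ x ∈ S, ∀ y ∈ S, ∃ B : Finset (EuclideanSpace ℝ (Fin (n + k))),
    (↑B : Set (EuclideanSpace ℝ (Fin (n + k)))) ⊆ S ∧ x ∉ B ∧ y ∉ B ∧
    ∀ γ : ℝ → EuclideanSpace ℝ (Fin (n + k)), IsGeodesic S γ →
      γ 0 = x → γ 1 = y → deriv γ 0 ≠ 0 → ∃ t ∈ Set.Ioo (0 : ℝ) 1, γ t ∈ B

/-- `S` is flat: every point of `S` has a neighbourhood in `S` which is covered by a smooth map `φ`
from an open subset of the Euclidean space of dimension `n` to `S`, whose derivative preserves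
inner products. -/
def IsFlat (n k : ℕ) (S : Set (EuclideanSpace ℝ (Fin (n + k)))) : Prop :=
  ∀ p ∈ S, ∃ V : Set (EuclideanSpace ℝ (Fin n)), IsOpen V ∧
    ∃ φ : EuclideanSpace ℝ (Fin n) → EuclideanSpace ℝ (Fin (n + k)),
      ContDiffOn ℝ ((⊤ : ℕ∞) : WithTop ℕ∞) φ V ∧ φ '' V ⊆ S ∧
      (∃ W : Set (EuclideanSpace ℝ (Fin (n + k))), IsOpen W ∧ p ∈ W ∧ S ∩ W ⊆ φ '' V) ∧
      ∀ u ∈ V, ∀ a b : EuclideanSpace ℝ (Fin n),
        ⟪fderiv ℝ φ u a, fderiv ℝ φ u b⟫_ℝ = ⟪a, b⟫_ℝ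

/-- Compact totally geodesic surfaces of a secure space are flat: if `S` is secure (no other
assumption; for instance `S` is a closed manifold of any dimension), `S'` is a compact surface
contained in `S` and every geodesic of `S'` is a geodesic of `S`, then `S'` is flat. For `S' = S`
this says that every secure compact surface is flat. -/
theorem result : ∀ (k : ℕ) (S S' : Set (EuclideanSpace ℝ (Fin (2 + k)))),
    IsSecure S → S' ⊆ S → IsCompact S' → IsSubmanifold 2 k S' →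
    (∀ γ : ℝ → EuclideanSpace ℝ (Fin (2 + k)), IsGeodesic S' γ → IsGeodesic S γ) →
    IsFlat 2 k S' := by
  intro k S S' hsec hSS' hS hsub htg p hp
  have hgeo : ∀ γ : ℝ → EuclideanSpace ℝ (Fin (2 + k)), H91.GE.IsGeo S' γ → IsGeodesic S' γ :=
    fun γ h => ⟨h.smooth, h.mem, h.acc⟩
  have hsub' : H91.GE.IsSub (EuclideanSpace ℝ (Fin k)) S' := by
    intro p hp
    obtain ⟨U, hU, hpU, f, hf, hsurj, heq⟩ := hsub p hp
    exact ⟨U, hpU, f, ⟨hU, hf, hsurj, heq⟩⟩
  have hsec' : H91.GE.Secure S' := by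
    classical
    intro x hx y hy
    obtain ⟨B, hB, hxB, hyB, h⟩ := hsec x (hSS' hx) y (hSS' hy)
    refine ⟨B.filter (· ∈ S'), ?_, fun hc => hxB (Finset.mem_filter.1 hc).1,
      fun hc => hyB (Finset.mem_filter.1 hc).1, fun γ hγ h0 h1 hd => ?_⟩
    · intro b hb
      exact (Finset.mem_filter.1 (Finset.mem_coe.1 hb)).2
    · obtain ⟨t, ht, htB⟩ := h γ (htg γ (hgeo γ hγ)) h0 h1 hd
      exact ⟨t, ht, Finset.mem_filter.2 ⟨htB, hγ.mem t⟩⟩
  obtain ⟨φ, h1, h2, ⟨W, h3, h4, h5⟩, h6⟩ := H91.GE.secure_flat (F := EuclideanSpace ℝ (Fin k))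
    (by rw [finrank_euclideanSpace_fin, finrank_euclideanSpace_fin]; ring) hS hsub' hsec' hp
  refine ⟨Set.univ, isOpen_univ, φ, h1.contDiffOn, ?_, ⟨W, h3, h4, ?_⟩, fun u _ => h6 u⟩
  · rintro _ ⟨w, -, rfl⟩
    exact h2 w
  · rw [Set.image_univ]; exact h5

end Pool.Agent.Results.MP_db5e86_gt.SecureSurfaceFlat
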